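import Pool.Agent.Y159.TQ.Stm
import Pool.Agent.H510R2.Div

/-!
# Representations by `X ^ 2 - m Y ^ 2` (job TQ-REP of helper159)
-/

set_option autoImplicit false

namespace Pool.Agent.Y971.TQ

open Finset

section key

variable {m R X Y X' Y' X1 Y1 : ℤ}

lemma cop_R (h1 : X1 ^ 2 - m * Y1 ^ 2 = R) (c1 : IsCoprime X1 Y1) : IsCoprime R Y1 := by
  have h : R = X1 ^ 2 + Y1 * (-(m * Y1)) := by rw [← h1]; ring
  rw [h]
  exact (IsCoprime.pow_left c1).add_mul_left_left _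

lemma dvd_D2 {g v : ℤ} (hR : R ≠ 0) (hg : g = Int.gcd (X * Y1 - X1 * Y) R) (hv : R = g * v)
    (h : X ^ 2 - m * Y ^ 2 = R) (h1 : X1 ^ 2 - m * Y1 ^ 2 = R) : v ∣ X * Y1 + X1 * Y := by
  have hg0 : g ≠ 0 := by rintro rfl; exact hR (by rw [hv, zero_mul])
  have hgd : g ∣ X * Y1 - X1 * Y := by rw [hg]; exact Int.gcd_dvd_left _ _
  obtain ⟨d, hd⟩ := hgd
  have hcop : IsCoprime v d := by
    rw [Int.isCoprime_iff_gcd_eq_one]
    have e1 : Int.gcd (g * d) (g * v) = g.natAbs * Int.gcd d v := Int.gcd_mul_left _ _ _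
    rw [← hd, ← hv] at e1
    have e2 : g.natAbs = Int.gcd (X * Y1 - X1 * Y) R := by rw [hg]; rfl
    have e3 : 0 < g.natAbs := Int.natAbs_pos.2 hg0
    rw [← e2] at e1
    rw [Int.gcd_comm]
    exact Nat.eq_of_mul_eq_mul_left e3 (by rw [mul_one]; exact e1.symm)
  have e4 : g * v ∣ g * (d * (X * Y1 + X1 * Y)) := by
    refine ⟨Y1 ^ 2 - Y ^ 2, ?_⟩
    have : g * (d * (X * Y1 + X1 * Y)) = (X * Y1 - X1 * Y) * (X * Y1 + X1 * Y) := by
      rw [hd]; ring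
    rw [this, ← hv]
    have e5 : X ^ 2 = R + m * Y ^ 2 := by rw [← h]; ring
    have e6 : X1 ^ 2 = R + m * Y1 ^ 2 := by rw [← h1]; ring
    calc (X * Y1 - X1 * Y) * (X * Y1 + X1 * Y) = X ^ 2 * Y1 ^ 2 - X1 ^ 2 * Y ^ 2 := by ring
      _ = (R + m * Y ^ 2) * Y1 ^ 2 - (R + m * Y1 ^ 2) * Y ^ 2 := by rw [e5, e6]
      _ = _ := by ring
  have e7 : v ∣ d * (X * Y1 + X1 * Y) := (mul_dvd_mul_iff_left hg0).1 e4
  exact hcop.dvd_of_dvd_mul_left e7

lemma dvd_key (hR : R ≠ 0) (h : X ^ 2 - m * Y ^ 2 = R) (h' : X' ^ 2 - m * Y' ^ 2 = R)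
    (h1 : X1 ^ 2 - m * Y1 ^ 2 = R) (c : IsCoprime X Y) (c1 : IsCoprime X1 Y1)
    (hg : Int.gcd (X * Y1 - X1 * Y) R = Int.gcd (X' * Y1 - X1 * Y') R) :
    R ∣ 2 * m * (X * Y' - X' * Y) := by
  obtain ⟨g, hg1⟩ : ∃ g : ℤ, g = Int.gcd (X * Y1 - X1 * Y) R := ⟨_, rfl⟩
  have hg2 : g = Int.gcd (X' * Y1 - X1 * Y') R := by rw [hg1, hg]
  have hgR : g ∣ R := by rw [hg1]; exact Int.gcd_dvd_right _ _
  obtain ⟨v, hv⟩ := hgR
  have hgR : g ∣ R := ⟨v, hv⟩
  have hvR : v ∣ R := ⟨g, by rw [hv, mul_comm]⟩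
  have hgd : g ∣ X * Y1 - X1 * Y := by rw [hg1]; exact Int.gcd_dvd_left _ _
  have hgd' : g ∣ X' * Y1 - X1 * Y' := by rw [hg2]; exact Int.gcd_dvd_left _ _
  have hv2 := dvd_D2 hR hg1 hv h h1
  have hv2' := dvd_D2 hR hg2 hv h' h1
  have cR := cop_R h1 c1
  have cR' := cop_R h c
  have hgW : g ∣ X * Y' - X' * Y := by
    have e1 : g ∣ Y1 * (X * Y' - X' * Y) := by
      have : Y1 * (X * Y' - X' * Y) = Y' * (X * Y1 - X1 * Y) - Y * (X' * Y1 - X1 * Y') := by ring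
      rw [this]
      exact dvd_sub (hgd.mul_left _) (hgd'.mul_left _)
    exact (cR.of_isCoprime_of_dvd_left hgR).dvd_of_dvd_mul_left e1
  have hvW : v ∣ X * Y' - X' * Y := by
    have e1 : v ∣ Y1 * (X * Y' - X' * Y) := by
      have : Y1 * (X * Y' - X' * Y) = Y' * (X * Y1 + X1 * Y) - Y * (X' * Y1 + X1 * Y') := by ring
      rw [this]
      exact dvd_sub (hv2.mul_left _) (hv2'.mul_left _)
    exact (cR.of_isCoprime_of_dvd_left hvR).dvd_of_dvd_mul_left e1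
  obtain ⟨k, hk⟩ : ∃ k : ℤ, k = Int.gcd g v := ⟨_, rfl⟩
  have hkg : k ∣ g := by rw [hk]; exact Int.gcd_dvd_left _ _
  have hkv : k ∣ v := by rw [hk]; exact Int.gcd_dvd_right _ _
  have hk2m : k ∣ 2 * m := by
    have hkR := hkg.trans hgR
    have e1 : k ∣ Y1 * (2 * X) := by
      have : Y1 * (2 * X) = (X * Y1 - X1 * Y) + (X * Y1 + X1 * Y) := by ring
      rw [this]
      exact dvd_add (hkg.trans hgd) (hkv.trans hv2)
    have e2 : k ∣ 2 * X := (cR.of_isCoprime_of_dvd_left hkR).dvd_of_dvd_mul_left e1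
    have e3 : k ∣ Y * (Y * (2 * m)) := by
      have : Y * (Y * (2 * m)) = (2 * X) * X - 2 * R := by rw [← h]; ring
      rw [this]
      exact dvd_sub (e2.mul_right _) (hkR.mul_left _)
    have c3 := cR'.of_isCoprime_of_dvd_left hkR
    exact c3.dvd_of_dvd_mul_left (c3.dvd_of_dvd_mul_left e3)
  obtain ⟨t, ht⟩ := hk2m
  obtain ⟨w1, hw1⟩ := hgW
  obtain ⟨w2, hw2⟩ := hvW
  have hb : k = g * Int.gcdA g v + v * Int.gcdB g v := by rw [hk]; exact Int.gcd_eq_gcd_ab g v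
  rw [ht, hv]
  refine ⟨(w2 * Int.gcdA g v + w1 * Int.gcdB g v) * t, ?_⟩
  calc k * t * (X * Y' - X' * Y) =
      (g * Int.gcdA g v * (X * Y' - X' * Y) + v * Int.gcdB g v * (X * Y' - X' * Y)) * t := by
        conv_lhs => rw [hb]
        ring
    _ = (g * Int.gcdA g v * (v * w2) + v * Int.gcdB g v * (g * w1)) * t := by
        conv_lhs => rw [hw2]
        conv_rhs => rw [← hw2, ← hw1, hw2]
    _ = _ := by ring

end key

lemma pell_inj {m k u w u' w' : ℤ} (hm : 0 < m) (hk : 0 < k) (h : u ^ 2 - m * w ^ 2 = k)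
    (h' : u' ^ 2 - m * w' ^ 2 = k) (hu : k ∣ u - u') (hw : k ∣ w - w')
    (hpos : 0 < u * u' - m * w * w') (hlt : u * u' - m * w * w' < 2 * k) : u = u' ∧ w = w' := by
  have h1 : k ∣ u * u' - m * w * w' := by
    have : u * u' - m * w * w' = (u - u') * u' - (w - w') * (m * w') + k := by rw [← h']; ring
    rw [this]
    exact dvd_add (dvd_sub (hu.mul_right _) (hw.mul_right _)) dvd_rfl
  have h2 : k ∣ u' * w - u * w' := by
    have : u' * w - u * w' = (w - w') * u' - (u - u') * w' := by ring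
    rw [this]
    exact dvd_sub (hw.mul_right _) (hu.mul_right _)
  obtain ⟨a, ha⟩ := h1
  obtain ⟨b, hb⟩ := h2
  have ha1 : a = 1 := by
    rw [ha] at hpos hlt
    have e1 : 0 < a := pos_of_mul_pos_right hpos hk.le
    have e2 : a < 2 := by nlinarith
    omega
  have h3 : (k * a) ^ 2 - m * (k * b) ^ 2 = k ^ 2 := by
    rw [← ha, ← hb]
    calc (u * u' - m * w * w') ^ 2 - m * (u' * w - u * w') ^ 2 =
        (u ^ 2 - m * w ^ 2) * (u' ^ 2 - m * w' ^ 2) := by ring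
      _ = k ^ 2 := by rw [h, h']; ring
  have hb0 : b = 0 := by
    rw [ha1] at h3
    have : m * (k * b) ^ 2 = 0 := by linarith
    rcases mul_eq_zero.1 this with h | h
    · omega
    · have := pow_eq_zero_iff (two_ne_zero) |>.1 h
      rcases mul_eq_zero.1 this with h | h
      · omega
      · exact h
  rw [ha1, mul_one] at ha
  rw [hb0, mul_zero] at hb
  constructor
  · have : k * u = k * u' := by
      calc k * u = (u' ^ 2 - m * w' ^ 2) * u := by rw [h']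
        _ = u' * (u * u' - m * w * w') + m * w' * (u' * w - u * w') := by ring
        _ = k * u' := by rw [ha, hb]; ring
    exact mul_left_cancel₀ hk.ne' this
  · have : k * w = k * w' := by
      calc k * w = (u' ^ 2 - m * w' ^ 2) * w := by rw [h']
        _ = u' * (u' * w - u * w') + w' * (u * u' - m * w * w') := by ring
        _ = k * w' := by rw [ha, hb]; ring
    exact mul_left_cancel₀ hk.ne' this

lemma pell_real {m k α η η' η₂ η₂' : ℝ} {u w u' w' : ℝ} (hk : 0 < k) (hα : α ^ 2 = m)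
    (e1 : η = u + α * w) (e1' : η' = u - α * w) (e2 : η₂ = u' + α * w') (e2' : η₂' = u' - α * w')
    (h : u ^ 2 - m * w ^ 2 = k) (h' : u' ^ 2 - m * w' ^ 2 = k) (hpos : 0 < η * η₂)
    (h1 : |η| < 2 * |η₂|) (h2 : |η₂| < 2 * |η|) :
    0 < u * u' - m * w * w' ∧ u * u' - m * w * w' < 2 * k := by
  have f1 : η * η' = k := by rw [e1, e1', ← h, ← hα]; ring
  have f2 : η₂ * η₂' = k := by rw [e2, e2', ← h', ← hα]; ring
  have f3 : 2 * (u * u' - m * w * w') = η * η₂' + η' * η₂ := by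
    rw [e1, e1', e2, e2', ← hα]; ring
  have f4 : 2 * (u * u' - m * w * w') * (η * η₂) = k * (η ^ 2 + η₂ ^ 2) := by
    rw [f3]
    calc (η * η₂' + η' * η₂) * (η * η₂) = η ^ 2 * (η₂ * η₂') + (η * η') * η₂ ^ 2 := by ring
      _ = _ := by rw [f1, f2]; ring
  have hη : η ≠ 0 := left_ne_zero_of_mul hpos.ne'
  have hη2 : η₂ ≠ 0 := right_ne_zero_of_mul hpos.ne'
  have a1 : 0 < |η| := abs_pos.2 hη
  have a2 : 0 < |η₂| := abs_pos.2 hη2
  have a3 : |η| * |η₂| = η * η₂ := by rw [← abs_mul, abs_of_pos hpos]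
  have a4 : η ^ 2 < 2 * (η * η₂) := by
    rw [← sq_abs, ← a3]; nlinarith
  have a5 : η₂ ^ 2 < 2 * (η * η₂) := by
    rw [← sq_abs, ← a3]; nlinarith
  constructor
  · have : 0 < 2 * (u * u' - m * w * w') * (η * η₂) := by
      rw [f4]; positivity
    have := pos_of_mul_pos_left this hpos.le
    linarith
  · have : 2 * (u * u' - m * w * w') * (η * η₂) < (4 * k) * (η * η₂) := by
      rw [f4]; nlinarith
    have := lt_of_mul_lt_mul_right this hpos.le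
    linarith

/-- The number of solutions of an equation of Pell type. -/
lemma pell (m : ℤ) (hm : m ≠ 0) (ε : ℝ) (hε : 0 < ε) : ∃ C : ℝ, 0 < C ∧ ∀ T : ℝ, 1 ≤ T →
    ∀ S : Finset (ℤ × ℤ), (∀ x ∈ S, x.1 ^ 2 - m * x.2 ^ 2 = 4 * m ^ 2 ∧ |(x.1 : ℝ)| ≤ T ∧
      |(x.2 : ℝ)| ≤ T) → (S.card : ℝ) ≤ C * T ^ ε := by
  obtain ⟨k, hk⟩ : ∃ k : ℤ, k = 4 * m ^ 2 := ⟨_, rfl⟩
  have hk0 : 0 < k := by rw [hk]; positivity
  rcases lt_or_gt_of_ne hm with hneg | hpos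
  · refine ⟨(((Icc (-k) k ×ˢ Icc (-k) k).card : ℕ) : ℝ) + 1, by positivity, ?_⟩
    intro T hT S hS
    have hsub : S ⊆ Icc (-k) k ×ˢ Icc (-k) k := by
      intro x hx
      obtain ⟨h1, -, -⟩ := hS x hx
      rw [← hk] at h1
      have e1 : x.1 ^ 2 ≤ k := by nlinarith [sq_nonneg x.2]
      have e2 : x.2 ^ 2 ≤ k := by nlinarith [sq_nonneg x.1, sq_nonneg x.2]
      have e3 : ∀ y : ℤ, y ^ 2 ≤ k → y ∈ Icc (-k) k := by
        intro y hy
        rw [mem_Icc]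
        have : |y| ≤ y ^ 2 := by
          rcases eq_or_ne y 0 with rfl | h0
          · simp
          · have := Int.one_le_abs h0
            rw [← sq_abs]; nlinarith
        exact abs_le.1 (this.trans hy)
      exact mem_product.2 ⟨e3 _ e1, e3 _ e2⟩
    have h1 : (S.card : ℝ) ≤ ((Icc (-k) k ×ˢ Icc (-k) k).card : ℕ) := by
      exact_mod_cast card_le_card hsub
    have h2 : 1 ≤ T ^ ε := Real.one_le_rpow hT hε.le
    nlinarith
  · have hmR : (0 : ℝ) < m := by exact_mod_cast hpos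
    have hmR1 : (1 : ℝ) ≤ m := by exact_mod_cast hpos
    have hkR : (0 : ℝ) < k := by exact_mod_cast hk0
    have hl2 : 0 < Real.log 2 := Real.log_pos one_lt_two
    refine ⟨2 * k * k * (2 / (ε * Real.log 2) * (1 + m) ^ ε + 3), by positivity, ?_⟩
    intro T hT S hS
    obtain ⟨α, hα0, hα⟩ : ∃ α : ℝ, 0 ≤ α ∧ α ^ 2 = m := ⟨Real.sqrt m, Real.sqrt_nonneg _,
      Real.sq_sqrt hmR.le⟩
    have hαm : α ≤ m := by nlinarith
    let η : ℤ × ℤ → ℝ := fun x => x.1 + α * x.2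
    obtain ⟨M, hM⟩ : ∃ M : ℝ, M = (1 + m) * T := ⟨_, rfl⟩
    have hM1 : 1 ≤ M := by rw [hM]; nlinarith
    obtain ⟨L, hL⟩ : ∃ L : ℕ, L = ⌈Real.logb 2 M⌉₊ := ⟨_, rfl⟩
    have hML : M ≤ (2 : ℝ) ^ (L : ℤ) := by
      rw [zpow_natCast, ← Real.rpow_natCast, ← Real.logb_le_iff_le_rpow one_lt_two (by linarith),
        hL]
      exact Nat.le_ceil _
    have hb : ∀ x ∈ S, ((x.1 : ℝ) + α * x.2) * (x.1 - α * x.2) = k ∧
        |(x.1 : ℝ) + α * x.2| ≤ M ∧ |(x.1 : ℝ) - α * x.2| ≤ M := by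
      intro x hx
      obtain ⟨h1, h2, h3⟩ := hS x hx
      have h4 : (x.1 : ℝ) ^ 2 - m * x.2 ^ 2 = k := by rw [← hk] at h1; exact_mod_cast h1
      have h5 : |α * (x.2 : ℝ)| ≤ m * T := by
        rw [abs_mul, abs_of_nonneg hα0]
        exact mul_le_mul hαm h3 (abs_nonneg _) hmR.le
      refine ⟨?_, ?_, ?_⟩
      · rw [← h4, ← hα]; ring
      · refine (abs_add_le _ _).trans ?_
        rw [hM]; linarith
      · refine (abs_sub _ _).trans ?_
        rw [hM]; linarith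
    let Ψ : ℤ × ℤ → Bool × ℤ × ℤ × ℤ := fun x =>
      (decide (0 < η x), x.1 % k, x.2 % k, Int.log 2 |η x|)
    have hη0 : ∀ x ∈ S, η x ≠ 0 := fun x hx => left_ne_zero_of_mul (by rw [(hb x hx).1]; exact hkR.ne')
    have hmaps : Set.MapsTo Ψ S
        ((univ : Finset Bool) ×ˢ Ico (0 : ℤ) k ×ˢ Ico (0 : ℤ) k ×ˢ Icc (-(L : ℤ)) L :
          Finset (Bool × ℤ × ℤ × ℤ)) := by
      intro x hx
      have hx' : x ∈ S := hx
      obtain ⟨h1, h2, h3⟩ := hb x hx'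
      have hpos' : 0 < |η x| := abs_pos.2 (hη0 x hx')
      have h4 : |η x| ≤ (2 : ℝ) ^ (L : ℤ) := h2.trans hML
      have h5 : (2 : ℝ) ^ (-(L : ℤ)) ≤ |η x| := by
        rw [zpow_neg]
        have h6 : |η x| * |(x.1 : ℝ) - α * x.2| = k := by
          rw [← abs_mul]
          change |((x.1 : ℝ) + α * x.2) * (x.1 - α * x.2)| = k
          rw [h1, abs_of_pos hkR]
        have h7 : (1 : ℝ) ≤ k := by exact_mod_cast hk0
        have h8 : 1 ≤ |η x| * (2 : ℝ) ^ (L : ℤ) := by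
          calc (1 : ℝ) ≤ k := h7
            _ = |η x| * |(x.1 : ℝ) - α * x.2| := h6.symm
            _ ≤ _ := mul_le_mul_of_nonneg_left (h3.trans hML) hpos'.le
        rw [inv_le_iff_one_le_mul₀ (by positivity)]
        exact h8
      simp only [Ψ, coe_product, Set.mem_prod, mem_coe, mem_univ, true_and, mem_Ico, mem_Icc]
      refine ⟨⟨Int.emod_nonneg _ hk0.ne', Int.emod_lt_of_pos _ hk0⟩,
        ⟨Int.emod_nonneg _ hk0.ne', Int.emod_lt_of_pos _ hk0⟩, ?_, ?_⟩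
      · have := Int.log_mono_right (b := 2) (by positivity) h5
        rwa [show ((2 : ℝ)) = ((2 : ℕ) : ℝ) by norm_num, Int.log_zpow one_lt_two] at this
      · have := Int.log_mono_right (b := 2) hpos' h4
        rwa [show ((2 : ℝ)) = ((2 : ℕ) : ℝ) by norm_num, Int.log_zpow one_lt_two] at this
    have hinj : Set.InjOn Ψ S := by
      intro x hx y hy hxy
      have hx' : x ∈ S := hx
      have hy' : y ∈ S := hy
      simp only [Ψ, Prod.mk.injEq] at hxy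
      obtain ⟨g1, g2, g3, g4⟩ := hxy
      have hxk : x.1 ^ 2 - m * x.2 ^ 2 = k := by rw [hk]; exact (hS x hx').1
      have hyk : y.1 ^ 2 - m * y.2 ^ 2 = k := by rw [hk]; exact (hS y hy').1
      have hsgn : 0 < η x * η y := by
        have h1 : 0 < η x ↔ 0 < η y := by simpa using g1
        rcases lt_or_gt_of_ne (hη0 x hx') with h2 | h2
        · rcases lt_or_gt_of_ne (hη0 y hy') with h3 | h3
          · exact mul_pos_of_neg_of_neg h2 h3
          · exact absurd (h1.2 h3) (not_lt.2 h2.le)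
        · exact mul_pos h2 (h1.1 h2)
      have l1 := Int.zpow_log_le_self (b := 2) one_lt_two (abs_pos.2 (hη0 x hx'))
      have l2 := Int.lt_zpow_succ_log_self (b := 2) one_lt_two |η x|
      have l3 := Int.zpow_log_le_self (b := 2) one_lt_two (abs_pos.2 (hη0 y hy'))
      have l4 := Int.lt_zpow_succ_log_self (b := 2) one_lt_two |η y|
      rw [g4] at l1 l2
      rw [zpow_add₀ (by norm_num), zpow_one] at l2 l4
      push_cast at l1 l2 l3 l4
      have key := pell_real (m := m) (k := k) (α := α) (u := x.1) (w := x.2) (u' := y.1)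
        (w' := y.2) hkR hα rfl rfl rfl rfl (by exact_mod_cast hxk) (by exact_mod_cast hyk)
        hsgn (by linarith) (by linarith)
      have k1 : 0 < x.1 * y.1 - m * x.2 * y.2 := by exact_mod_cast key.1
      have k2 : x.1 * y.1 - m * x.2 * y.2 < 2 * k := by exact_mod_cast key.2
      have := pell_inj hpos hk0 hxk hyk (Int.ModEq.dvd g2.symm) (Int.ModEq.dvd g3.symm) k1 k2
      exact Prod.ext this.1 this.2
    have hcard := card_le_card_of_injOn Ψ hmaps hinj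
    rw [card_product, card_product, card_product, Int.card_Ico, Int.card_Icc, card_univ,
      Fintype.card_bool] at hcard
    have e1 : ((k - 0).toNat : ℝ) = k := by
      rw [sub_zero]
      exact_mod_cast Int.toNat_of_nonneg hk0.le
    have e2 : ((((L : ℤ) + 1 - -(L : ℤ)).toNat : ℕ) : ℝ) = 2 * L + 1 := by
      have : ((L : ℤ) + 1 - -(L : ℤ)).toNat = 2 * L + 1 := by omega
      rw [this]; push_cast; ring
    have hcardR : (S.card : ℝ) ≤ 2 * (k * (k * (2 * L + 1))) := by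
      have : (S.card : ℝ) ≤ ((2 * ((k - 0).toNat * ((k - 0).toNat *
        ((L : ℤ) + 1 - -(L : ℤ)).toNat)) : ℕ) : ℝ) := by exact_mod_cast hcard
      rw [Nat.cast_mul, Nat.cast_mul, Nat.cast_mul, e1, e2] at this
      exact_mod_cast this
    have hlogM : Real.log M ≤ M ^ ε / ε := Real.log_le_rpow_div (by linarith) hε
    have hLle : (L : ℝ) ≤ Real.log M / Real.log 2 + 1 := by
      rw [hL]
      have := (Nat.ceil_lt_add_one (Real.logb_nonneg one_lt_two hM1)).le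
      simpa [Real.logb] using this
    have hMe : M ^ ε = (1 + m) ^ ε * T ^ ε := by
      rw [hM, Real.mul_rpow (by linarith) (by linarith)]
    have hT1 : 1 ≤ T ^ ε := Real.one_le_rpow hT hε.le
    have h2L : 2 * (L : ℝ) + 1 ≤ (2 / (ε * Real.log 2) * (1 + m) ^ ε + 3) * T ^ ε := by
      have h3 : Real.log M / Real.log 2 ≤ (1 / (ε * Real.log 2)) * M ^ ε := by
        rw [div_le_iff₀ hl2]
        calc Real.log M ≤ M ^ ε / ε := hlogM
          _ = _ := by field_simp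
      calc 2 * (L : ℝ) + 1 ≤ 2 * ((1 / (ε * Real.log 2)) * M ^ ε + 1) + 1 := by linarith
        _ = (2 / (ε * Real.log 2) * (1 + m) ^ ε) * T ^ ε + 3 := by rw [hMe]; ring
        _ ≤ (2 / (ε * Real.log 2) * (1 + m) ^ ε) * T ^ ε + 3 * T ^ ε := by linarith
        _ = _ := by ring
    calc (S.card : ℝ) ≤ 2 * (k * (k * (2 * L + 1))) := hcardR
      _ ≤ 2 * (k * (k * ((2 / (ε * Real.log 2) * (1 + m) ^ ε + 3) * T ^ ε))) := by gcongr
      _ = _ := by ring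


lemma pell_sol {m R X Y X' Y' : ℤ} (hR : R ≠ 0) (h : X ^ 2 - m * Y ^ 2 = R)
    (h' : X' ^ 2 - m * Y' ^ 2 = R) (hd : R ∣ 2 * m * (X * Y' - X' * Y)) :
    R ∣ 2 * m * (X * X' - m * Y * Y') ∧
      (2 * m * (X * X' - m * Y * Y') / R) ^ 2 - m * (2 * m * (X * Y' - X' * Y) / R) ^ 2 =
        4 * m ^ 2 := by
  obtain ⟨w, hw⟩ := hd
  have e1 : (2 * m * (X * X' - m * Y * Y')) ^ 2 = R ^ 2 * (4 * m ^ 2 + m * w ^ 2) := by
    calc (2 * m * (X * X' - m * Y * Y')) ^ 2 =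
        4 * m ^ 2 * ((X ^ 2 - m * Y ^ 2) * (X' ^ 2 - m * Y' ^ 2)) +
          m * (2 * m * (X * Y' - X' * Y)) ^ 2 := by ring
      _ = _ := by rw [h, h', hw]; ring
  have e2 : R ∣ 2 * m * (X * X' - m * Y * Y') := by
    rw [← Int.pow_dvd_pow_iff two_ne_zero, e1]
    exact dvd_mul_right _ _
  refine ⟨e2, ?_⟩
  obtain ⟨u, hu⟩ := e2
  rw [hu, hw, Int.mul_ediv_cancel_left _ hR, Int.mul_ediv_cancel_left _ hR]
  rw [hu] at e1
  have e3 : R ^ 2 * u ^ 2 = R ^ 2 * (4 * m ^ 2 + m * w ^ 2) := by rw [← e1]; ring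
  have := mul_left_cancel₀ (pow_ne_zero 2 hR) e3
  linarith

/-- Primitive solutions. -/
lemma prim {m R : ℤ} (hm : m ≠ 0) (hR : R ≠ 0) {B : ℝ} (N : ℕ)
    (hN : ∀ S : Finset (ℤ × ℤ), (∀ x ∈ S, x.1 ^ 2 - m * x.2 ^ 2 = 4 * m ^ 2 ∧
      |(x.1 : ℝ)| ≤ 4 * m ^ 2 * B ^ 2 ∧ |(x.2 : ℝ)| ≤ 4 * m ^ 2 * B ^ 2) → S.card ≤ N)
    (A : Finset (ℤ × ℤ)) (hA : ∀ x ∈ A, IsCoprime x.1 x.2 ∧ x.1 ^ 2 - m * x.2 ^ 2 = R ∧
      |(x.1 : ℝ)| ≤ B ∧ |(x.2 : ℝ)| ≤ B) : A.card ≤ N * R.natAbs.divisors.card := by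
  classical
  rcases A.eq_empty_or_nonempty with rfl | ⟨p, hp⟩
  · simp
  obtain ⟨cp, hpR, -, -⟩ := hA p hp
  refine card_le_mul_card_image_of_maps_to (f := fun x : ℤ × ℤ =>
    Int.gcd (x.1 * p.2 - p.1 * x.2) R) (t := R.natAbs.divisors) ?_ N ?_
  · intro x _
    rw [Nat.mem_divisors]
    refine ⟨?_, Int.natAbs_ne_zero.2 hR⟩
    have := Int.gcd_dvd_right (x.1 * p.2 - p.1 * x.2) R
    exact Int.natCast_dvd.1 this
  · intro d _
    rcases (A.filter fun x : ℤ × ℤ => Int.gcd (x.1 * p.2 - p.1 * x.2) R = d).eq_empty_or_nonempty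
      with he | ⟨q, hq⟩
    · rw [he]; simp
    rw [mem_filter] at hq
    obtain ⟨hqA, hqd⟩ := hq
    obtain ⟨cq, hqR, hq1, hq2⟩ := hA q hqA
    let Φ : ℤ × ℤ → ℤ × ℤ := fun x => (2 * m * (x.1 * q.1 - m * x.2 * q.2) / R,
      2 * m * (x.1 * q.2 - q.1 * x.2) / R)
    have hdiv : ∀ x ∈ A.filter (fun x : ℤ × ℤ => Int.gcd (x.1 * p.2 - p.1 * x.2) R = d),
        R ∣ 2 * m * (x.1 * q.2 - q.1 * x.2) := by
      intro x hx
      rw [mem_filter] at hx
      obtain ⟨cx, hxR, -, -⟩ := hA x hx.1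
      exact dvd_key hR hxR hqR hpR cx cp (by rw [hx.2, hqd])
    have hinj : Set.InjOn Φ (A.filter fun x : ℤ × ℤ => Int.gcd (x.1 * p.2 - p.1 * x.2) R = d) := by
      intro x hx y hy hxy
      have hxR := (hA x (mem_filter.1 hx).1).2.1
      have hyR := (hA y (mem_filter.1 hy).1).2.1
      have dx := hdiv x hx
      have dy := hdiv y hy
      have dx' := (pell_sol hR hxR hqR dx).1
      have dy' := (pell_sol hR hyR hqR dy).1
      simp only [Φ, Prod.mk.injEq] at hxy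
      obtain ⟨g1, g2⟩ := hxy
      have k1 : 2 * m * (x.1 * q.1 - m * x.2 * q.2) = 2 * m * (y.1 * q.1 - m * y.2 * q.2) := by
        rw [← Int.mul_ediv_cancel' dx', ← Int.mul_ediv_cancel' dy', g1]
      have k2 : 2 * m * (x.1 * q.2 - q.1 * x.2) = 2 * m * (y.1 * q.2 - q.1 * y.2) := by
        rw [← Int.mul_ediv_cancel' dx, ← Int.mul_ediv_cancel' dy, g2]
      have h2m : 2 * m ≠ 0 := mul_ne_zero two_ne_zero hm
      have k3 := mul_left_cancel₀ h2m k1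
      have k4 := mul_left_cancel₀ h2m k2
      have k5 : R * x.1 = R * y.1 := by
        calc R * x.1 = (q.1 ^ 2 - m * q.2 ^ 2) * x.1 := by rw [hqR]
          _ = q.1 * (x.1 * q.1 - m * x.2 * q.2) - m * q.2 * (x.1 * q.2 - q.1 * x.2) := by ring
          _ = q.1 * (y.1 * q.1 - m * y.2 * q.2) - m * q.2 * (y.1 * q.2 - q.1 * y.2) := by
            rw [k3, k4]
          _ = (q.1 ^ 2 - m * q.2 ^ 2) * y.1 := by ring
          _ = R * y.1 := by rw [hqR]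
      have k6 : R * x.2 = R * y.2 := by
        calc R * x.2 = (q.1 ^ 2 - m * q.2 ^ 2) * x.2 := by rw [hqR]
          _ = q.2 * (x.1 * q.1 - m * x.2 * q.2) - q.1 * (x.1 * q.2 - q.1 * x.2) := by ring
          _ = q.2 * (y.1 * q.1 - m * y.2 * q.2) - q.1 * (y.1 * q.2 - q.1 * y.2) := by
            rw [k3, k4]
          _ = (q.1 ^ 2 - m * q.2 ^ 2) * y.2 := by ring
          _ = R * y.2 := by rw [hqR]
      exact Prod.ext (mul_left_cancel₀ hR k5) (mul_left_cancel₀ hR k6)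
    rw [← card_image_of_injOn hinj]
    apply hN
    intro z hz
    obtain ⟨x, hx, rfl⟩ := mem_image.1 hz
    obtain ⟨-, hxR, hx1, hx2⟩ := hA x (mem_filter.1 hx).1
    have dx := hdiv x hx
    obtain ⟨dx', hpell⟩ := pell_sol hR hxR hqR dx
    have hB : 0 ≤ B := (abs_nonneg _).trans hx1
    have hR1 : (1 : ℝ) ≤ |(R : ℝ)| := by exact_mod_cast Int.one_le_abs hR
    have hm1 : (1 : ℝ) ≤ |(m : ℝ)| := by exact_mod_cast Int.one_le_abs hm
    have hmul : ∀ a b : ℝ, |a| ≤ B → |b| ≤ B → |a * b| ≤ B ^ 2 := by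
      intro a b ha hb
      rw [abs_mul, sq]
      exact mul_le_mul ha hb (abs_nonneg _) hB
    have gen : ∀ (u V : ℤ), R * u = 2 * m * V → |(V : ℝ)| ≤ B ^ 2 + |(m : ℝ)| * B ^ 2 →
        |(u : ℝ)| ≤ 4 * m ^ 2 * B ^ 2 := by
      intro u V huV hV
      have h1 : |(R : ℝ)| * |(u : ℝ)| = 2 * |(m : ℝ)| * |(V : ℝ)| := by
        rw [← abs_mul]
        have : (R : ℝ) * u = 2 * m * V := by exact_mod_cast huV
        rw [this, abs_mul, abs_mul, abs_two]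
      calc |(u : ℝ)| ≤ |(R : ℝ)| * |(u : ℝ)| := le_mul_of_one_le_left (abs_nonneg _) hR1
        _ = 2 * |(m : ℝ)| * |(V : ℝ)| := h1
        _ ≤ 2 * |(m : ℝ)| * (B ^ 2 + |(m : ℝ)| * B ^ 2) := by gcongr
        _ ≤ 2 * |(m : ℝ)| * (|(m : ℝ)| * B ^ 2 + |(m : ℝ)| * B ^ 2) := by
          gcongr
          exact le_mul_of_one_le_left (sq_nonneg _) hm1
        _ = 4 * |(m : ℝ)| ^ 2 * B ^ 2 := by ring
        _ = _ := by rw [sq_abs]
    refine ⟨hpell, ?_, ?_⟩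
    · refine gen _ _ (Int.mul_ediv_cancel' dx') ?_
      push_cast
      calc |(x.1 : ℝ) * q.1 - m * x.2 * q.2| ≤ |(x.1 : ℝ) * q.1| + |(m : ℝ) * x.2 * q.2| :=
            abs_sub _ _
        _ = |(x.1 : ℝ) * q.1| + |(m : ℝ)| * |(x.2 : ℝ) * q.2| := by rw [mul_assoc, abs_mul (m : ℝ)]
        _ ≤ _ := by
          gcongr
          · exact hmul _ _ hx1 hq1
          · exact hmul _ _ hx2 hq2
    · refine gen _ _ (Int.mul_ediv_cancel' dx) ?_
      push_cast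
      calc |(x.1 : ℝ) * q.2 - q.1 * x.2| ≤ |(x.1 : ℝ) * q.2| + |(q.1 : ℝ) * x.2| := abs_sub _ _
        _ ≤ B ^ 2 + B ^ 2 := add_le_add (hmul _ _ hx1 hq2) (hmul _ _ hq1 hx2)
        _ ≤ _ := by
          gcongr
          exact le_mul_of_one_le_left (sq_nonneg _) hm1

/-- All solutions. -/
lemma all {m R : ℤ} (hm : m ≠ 0) (hR : R ≠ 0) {B : ℝ} (N : ℕ)
    (hN : ∀ S : Finset (ℤ × ℤ), (∀ x ∈ S, x.1 ^ 2 - m * x.2 ^ 2 = 4 * m ^ 2 ∧
      |(x.1 : ℝ)| ≤ 4 * m ^ 2 * B ^ 2 ∧ |(x.2 : ℝ)| ≤ 4 * m ^ 2 * B ^ 2) → S.card ≤ N)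
    (A : Finset (ℤ × ℤ)) (hA : ∀ x ∈ A, x.1 ^ 2 - m * x.2 ^ 2 = R ∧
      |(x.1 : ℝ)| ≤ B ∧ |(x.2 : ℝ)| ≤ B) :
    A.card ≤ N * R.natAbs.divisors.card * R.natAbs.divisors.card := by
  classical
  have hgR : ∀ x ∈ A, ((Int.gcd x.1 x.2 : ℕ) : ℤ) ^ 2 ∣ R := by
    intro x hx
    rw [← (hA x hx).1]
    have h1 := Int.gcd_dvd_left x.1 x.2
    have h2 := Int.gcd_dvd_right x.1 x.2
    exact dvd_sub (pow_dvd_pow_of_dvd h1 2) ((pow_dvd_pow_of_dvd h2 2).mul_left _)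
  refine card_le_mul_card_image_of_maps_to (f := fun x : ℤ × ℤ => Int.gcd x.1 x.2)
    (t := R.natAbs.divisors) ?_ _ ?_
  · intro x hx
    rw [Nat.mem_divisors]
    refine ⟨?_, Int.natAbs_ne_zero.2 hR⟩
    exact Int.natCast_dvd.1 ((dvd_pow_self _ two_ne_zero).trans (hgR x hx))
  · intro g _
    rcases (A.filter fun x : ℤ × ℤ => Int.gcd x.1 x.2 = g).eq_empty_or_nonempty with he | ⟨q, hq⟩
    · rw [he]; simp
    rw [mem_filter] at hq
    obtain ⟨hqA, hqg⟩ := hq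
    have hg2 : (g : ℤ) ^ 2 ∣ R := by rw [← hqg]; exact hgR q hqA
    obtain ⟨R', hR'⟩ := hg2
    have hg0 : (g : ℤ) ≠ 0 := by
      intro h; rw [h] at hR'; exact hR (by rw [hR']; ring)
    have hR0 : R' ≠ 0 := by rintro rfl; exact hR (by rw [hR', mul_zero])
    have hg1 : (1 : ℝ) ≤ g := by
      have : g ≠ 0 := by exact_mod_cast hg0
      exact_mod_cast Nat.one_le_iff_ne_zero.2 this
    let Φ : ℤ × ℤ → ℤ × ℤ := fun x => (x.1 / g, x.2 / g)
    have hd : ∀ x ∈ A.filter (fun x : ℤ × ℤ => Int.gcd x.1 x.2 = g),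
        (g : ℤ) * (x.1 / g) = x.1 ∧ (g : ℤ) * (x.2 / g) = x.2 := by
      intro x hx
      have h := (mem_filter.1 hx).2
      have h1 := Int.gcd_dvd_left x.1 x.2
      have h2 := Int.gcd_dvd_right x.1 x.2
      rw [h] at h1 h2
      exact ⟨Int.mul_ediv_cancel' h1, Int.mul_ediv_cancel' h2⟩
    have hinj : Set.InjOn Φ (A.filter fun x : ℤ × ℤ => Int.gcd x.1 x.2 = g) := by
      intro x hx y hy hxy
      simp only [Φ, Prod.mk.injEq] at hxy
      obtain ⟨x1, x2⟩ := hd x hx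
      obtain ⟨y1, y2⟩ := hd y hy
      refine Prod.ext ?_ ?_
      · rw [← x1, ← y1, hxy.1]
      · rw [← x2, ← y2, hxy.2]
    rw [← card_image_of_injOn hinj]
    have hprim := prim (R := R') hm hR0 N hN
      ((A.filter fun x : ℤ × ℤ => Int.gcd x.1 x.2 = g).image Φ) (by
        intro z hz
        obtain ⟨x, hx, rfl⟩ := mem_image.1 hz
        obtain ⟨x1, x2⟩ := hd x hx
        obtain ⟨hxR, hb1, hb2⟩ := hA x (mem_filter.1 hx).1
        have hgcd := (mem_filter.1 hx).2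
        have hbd : ∀ a b : ℤ, (g : ℤ) * a = b → |(b : ℝ)| ≤ B → |(a : ℝ)| ≤ B := by
          intro a b hab hb
          have : (b : ℝ) = g * a := by exact_mod_cast hab.symm
          rw [this, abs_mul, abs_of_nonneg (by positivity : (0 : ℝ) ≤ g)] at hb
          exact (le_mul_of_one_le_left (abs_nonneg _) hg1).trans hb
        refine ⟨?_, ?_, hbd _ _ x1 hb1, hbd _ _ x2 hb2⟩
        · change IsCoprime (x.1 / (g : ℤ)) (x.2 / (g : ℤ))
          rw [Int.isCoprime_iff_gcd_eq_one]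
          have h1 : Int.gcd ((g : ℤ) * (x.1 / g)) ((g : ℤ) * (x.2 / g)) =
            (g : ℤ).natAbs * Int.gcd (x.1 / g) (x.2 / g) := Int.gcd_mul_left _ _ _
          rw [x1, x2, hgcd, Int.natAbs_natCast] at h1
          have hgpos : 0 < g := Nat.pos_of_ne_zero (by exact_mod_cast hg0)
          exact Nat.eq_of_mul_eq_mul_left hgpos (by rw [mul_one]; exact h1.symm)
        · change (x.1 / (g : ℤ)) ^ 2 - m * (x.2 / (g : ℤ)) ^ 2 = R'
          have h1 : (g : ℤ) ^ 2 * ((x.1 / (g : ℤ)) ^ 2 - m * (x.2 / (g : ℤ)) ^ 2) =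
              (g : ℤ) ^ 2 * R' := by
            rw [← hR', ← hxR]
            conv_rhs => rw [← x1, ← x2]
            ring
          exact mul_left_cancel₀ (pow_ne_zero 2 hg0) h1)
    refine hprim.trans (Nat.mul_le_mul_left _ (card_le_card ?_))
    apply Nat.divisors_subset_of_dvd (Int.natAbs_ne_zero.2 hR)
    rw [Int.natAbs_dvd_natAbs, hR']
    exact dvd_mul_left _ _

/-- TQ-REP: the number of representations by `X ^ 2 - m Y ^ 2` -/
theorem rep : Pool.Agent.Y159.TQ.TaskRep := by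
  intro m hm ε hε
  obtain ⟨C1, hC1, h1⟩ := pell m hm (ε / 2) (by positivity)
  obtain ⟨C2, hC2, h2⟩ := Pool.Agent.H510R2.divisor_bound (ε / 2) (by positivity)
  have hm0 : (0 : ℝ) < |(m : ℝ)| := abs_pos.2 (by exact_mod_cast hm)
  have hm1 : (1 : ℝ) ≤ (m : ℝ) ^ 2 := by
    have : (1 : ℤ) ≤ m ^ 2 := by
      have := Int.one_le_abs hm
      rw [← sq_abs]; nlinarith
    exact_mod_cast this
  refine ⟨C1 * (4 * (m : ℝ) ^ 2) ^ (ε / 2) * C2 * C2, by positivity, ?_⟩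
  intro R B hR hB A hA
  have hR1 : (1 : ℝ) ≤ |(R : ℝ)| := by exact_mod_cast Int.one_le_abs hR
  obtain ⟨T, hT⟩ : ∃ T : ℝ, T = 4 * (m : ℝ) ^ 2 * B ^ 2 := ⟨_, rfl⟩
  have hT1 : 1 ≤ T := by
    rw [hT]; nlinarith [mul_self_nonneg (B - 1)]
  have hN : ∀ S : Finset (ℤ × ℤ), (∀ x ∈ S, x.1 ^ 2 - m * x.2 ^ 2 = 4 * m ^ 2 ∧
      |(x.1 : ℝ)| ≤ 4 * m ^ 2 * B ^ 2 ∧ |(x.2 : ℝ)| ≤ 4 * m ^ 2 * B ^ 2) →
      S.card ≤ ⌊C1 * T ^ (ε / 2)⌋₊ := by
    intro S hS
    apply Nat.le_floor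
    refine h1 T hT1 S fun x hx => ?_
    rw [hT]
    exact hS x hx
  have key := all hm hR _ hN A hA
  have keyR : (A.card : ℝ) ≤ (⌊C1 * T ^ (ε / 2)⌋₊ : ℝ) * (R.natAbs.divisors.card : ℝ) *
      (R.natAbs.divisors.card : ℝ) := by exact_mod_cast key
  have hd : (R.natAbs.divisors.card : ℝ) ≤ C2 * |(R : ℝ)| ^ (ε / 2) := by
    have := h2 R.natAbs (Nat.one_le_iff_ne_zero.2 (Int.natAbs_ne_zero.2 hR))
    rwa [Nat.cast_natAbs, Int.cast_abs] at this
  have hfl : (⌊C1 * T ^ (ε / 2)⌋₊ : ℝ) ≤ C1 * T ^ (ε / 2) := Nat.floor_le (by positivity)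
  have hT2 : T ^ (ε / 2) = (4 * (m : ℝ) ^ 2) ^ (ε / 2) * B ^ ε := by
    rw [hT, Real.mul_rpow (by positivity) (by positivity), ← Real.rpow_natCast B 2,
      ← Real.rpow_mul (by linarith)]
    congr 2
    push_cast; ring
  have hR2 : |(R : ℝ)| ^ (ε / 2) * |(R : ℝ)| ^ (ε / 2) = |(R : ℝ)| ^ ε := by
    rw [← Real.rpow_add (by linarith)]; congr 1; ring
  calc (A.card : ℝ) ≤ (⌊C1 * T ^ (ε / 2)⌋₊ : ℝ) * (R.natAbs.divisors.card : ℝ) *
      (R.natAbs.divisors.card : ℝ) := keyR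
    _ ≤ (C1 * T ^ (ε / 2)) * (C2 * |(R : ℝ)| ^ (ε / 2)) * (C2 * |(R : ℝ)| ^ (ε / 2)) := by
      gcongr
    _ = (C1 * (4 * (m : ℝ) ^ 2) ^ (ε / 2) * C2 * C2) *
        ((|(R : ℝ)| ^ (ε / 2) * |(R : ℝ)| ^ (ε / 2)) * B ^ ε) := by rw [hT2]; ring
    _ = _ := by
      rw [hR2, Real.mul_rpow (x := |(R : ℝ)|) (y := B) (z := ε) (abs_nonneg _) (by linarith)]

end Pool.Agent.Y971.TQ
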